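import Pool.Agent.Q163.LX.Suf

/-!
# Logarithmic averages: almost sure convergence at the exact threshold
-/

set_option autoImplicit false

namespace Pool.Agent.Q163.LX

open Finset Filter Topology MeasureTheory ProbabilityTheory Pool.Agent.Q163.RP Pool.Agent.Q163.RX

/-- the threshold `log log log N` -/
noncomputable def lll (N : ℕ) : ℕ := ⌊Real.log (Real.log (Real.log N))⌋₊

/-- a multiple of the threshold -/
noncomputable def lllD (D : ℝ) (N : ℕ) : ℕ := ⌈D * Real.log (Real.log (Real.log N))⌉₊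

lemma tl1 : Tendsto (fun N : ℕ => Real.log (N : ℝ)) atTop atTop :=
  Real.tendsto_log_atTop.comp tendsto_natCast_atTop_atTop

lemma tl2 : Tendsto (fun N : ℕ => Real.log (Real.log (N : ℝ))) atTop atTop :=
  Real.tendsto_log_atTop.comp tl1

lemma tl3 : Tendsto (fun N : ℕ => Real.log (Real.log (Real.log (N : ℝ)))) atTop atTop :=
  Real.tendsto_log_atTop.comp tl2

theorem mass_lllD (P : Set ℕ) (hP : Tendsto (mass P lll) atTop atTop) (D : ℝ) (hD : 1 ≤ D) :
    Tendsto (mass P (lllD D)) atTop atTop := by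
  obtain ⟨C, hC⟩ := mass_shift P
  have h1 : Tendsto (fun N => mass P lll N + -C) atTop atTop := tendsto_atTop_add_const_right _ _ hP
  refine tendsto_atTop_mono' _ ?_ h1
  filter_upwards [tl3.eventually_ge_atTop (D + 5)] with N h2
  set x := Real.log (Real.log (Real.log (N : ℝ))) with hx
  have hf1 : (lll N : ℝ) ≤ x := Nat.floor_le (by linarith)
  have hf2 : x < (lll N : ℝ) + 1 := Nat.lt_floor_add_one x
  have h3 : 3 ≤ lll N := by
    have : (4 : ℝ) < lll N := by linarith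
    have h4 : 4 < lll N := by exact_mod_cast this
    omega
  have hc : ((lllD D N : ℕ) : ℝ) < D * x + 1 := Nat.ceil_lt_add_one (by
    have : 0 ≤ x := by linarith
    positivity)
  have h4 : lllD D N ≤ lll N ^ 2 := by
    have h5 : ((lllD D N : ℕ) : ℝ) < ((lll N ^ 2 : ℕ) : ℝ) + 1 := by
      push_cast
      have h6 : D + 4 ≤ lll N := by linarith
      have h7 : (4 : ℝ) ≤ lll N := by linarith
      nlinarith
    have h6 : lllD D N < lll N ^ 2 + 1 := by exact_mod_cast h5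
    omega
  have := hC lll (lllD D) N h3 h4
  linarith

/-- the mass at all scales between a power of `N` and `N` -/
theorem mass_range (P : Set ℕ) (K : ℕ) (hK : 1 ≤ K) : ∃ C : ℝ, ∀ (u : ℕ → ℕ) (N X : ℕ), 125 ≤ X →
    N ≤ X ^ K → mass P u N ≤ ∑ p ∈ bl P (u N) X, (1 : ℝ) / p + C := by
  classical
  obtain ⟨C, hC, h⟩ := mert_diff
  refine ⟨Real.log (6 * K : ℕ) + C, fun u N X hX hN => ?_⟩
  obtain ⟨hz3, hz4⟩ := rt_facts hX
  have hsub : (Ioc (u N) N).filter (fun p => p.Prime ∧ p ∈ P) ⊆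
      bl P (u N) X ∪ (((Icc 1 (rt X ^ (6 * K))).filter Nat.Prime).filter (fun p => rt X < p)) := by
    intro p hp
    obtain ⟨hp1, hp2, hp3⟩ := Finset.mem_filter.1 hp
    rw [Finset.mem_Ioc] at hp1
    by_cases h2 : p ≤ rt X
    · refine Finset.mem_union_left _ ?_
      unfold bl
      exact Finset.mem_filter.2 ⟨Finset.mem_Ioc.2 ⟨hp1.1, h2⟩, hp2, hp3⟩
    · refine Finset.mem_union_right _ (Finset.mem_filter.2
          ⟨Finset.mem_filter.2 ⟨Finset.mem_Icc.2 ⟨hp2.one_lt.le, ?_⟩, hp2⟩, by omega⟩)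
      refine hp1.2.trans (hN.trans ?_)
      rw [pow_mul]
      exact Nat.pow_le_pow_left hz4 K
  have hnn : ∀ p : ℕ, (0 : ℝ) ≤ (1 : ℝ) / p := fun p => by positivity
  have h1 : mass P u N ≤ ∑ p ∈ bl P (u N) X ∪
      (((Icc 1 (rt X ^ (6 * K))).filter Nat.Prime).filter (fun p => rt X < p)), (1 : ℝ) / p := by
    have e : mass P u N = ∑ p ∈ (Ioc (u N) N).filter (fun p => p.Prime ∧ p ∈ P), (1 : ℝ) / p := by
      unfold RX.mass
      congr
    rw [e]
    exact Finset.sum_le_sum_of_subset_of_nonneg hsub fun p _ _ => hnn p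
  have h2 := Finset.sum_union_inter (s₁ := bl P (u N) X)
    (s₂ := ((Icc 1 (rt X ^ (6 * K))).filter Nat.Prime).filter (fun p => rt X < p))
    (f := fun p : ℕ => (1 : ℝ) / p)
  have h3 : 0 ≤ ∑ p ∈ bl P (u N) X ∩
      (((Icc 1 (rt X ^ (6 * K))).filter Nat.Prime).filter (fun p => rt X < p)), (1 : ℝ) / p :=
    Finset.sum_nonneg fun p _ => hnn p
  have h4 := h (rt X) (6 * K) hz3 (by omega)
  linarith

/-- partial summation -/
lemma abel (F : ℕ → ℝ) (N : ℕ) : ∑ n ∈ Icc 1 N, F n / n =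
    (∑ n ∈ Icc 1 N, F n) / (N + 1) + ∑ m ∈ Icc 1 N, (∑ n ∈ Icc 1 m, F n) / (m * (m + 1)) := by
  induction N with
  | zero => simp
  | succ N ih =>
    rw [Finset.sum_Icc_succ_top (by omega), ih, Finset.sum_Icc_succ_top (by omega : 1 ≤ N + 1)
      (fun m : ℕ => (∑ n ∈ Icc 1 m, F n) / ((m : ℝ) * (m + 1))),
      Finset.sum_Icc_succ_top (by omega : 1 ≤ N + 1) F]
    push_cast
    have h1 : (N : ℝ) + 1 ≠ 0 := by positivity
    have h2 : (N : ℝ) + 1 + 1 ≠ 0 := by positivity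
    field_simp
    ring

lemma harm (Y : ℕ) : ∑ m ∈ Icc 1 Y, (1 : ℝ) / (m + 1) ≤ 1 + Real.log Y := by
  refine (Finset.sum_le_sum (g := fun m : ℕ => ((m : ℝ))⁻¹) fun m hm => ?_).trans ?_
  · rw [one_div]
    have h1 : (1 : ℝ) ≤ m := by exact_mod_cast (Finset.mem_Icc.1 hm).1
    exact inv_anti₀ (by linarith) (by linarith)
  · have h := harmonic_le_one_add_log Y
    rw [harmonic_eq_sum_Icc] at h
    push_cast at h
    exact h

lemma meas_cs (P : Set ℕ) {k : ℕ} (a b : Fin k → ℕ) (w : ℕ → ℝ) (n : ℕ) :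
    Measurable fun ω => cs P a b w ω n := by
  unfold cs
  exact (Finset.measurable_fun_prod _ fun i _ => meas_mult signs P _).const_mul _

/-- the bad event at scale `m` -/
def bad (P : Set ℕ) {k : ℕ} (a b : Fin k → ℕ) (w : ℕ → ℝ) (η : ℝ) (m : ℕ) : Set (ℕ → Bool) :=
  {ω | 4 * η * m < |∑ n ∈ Icc 1 m, cs P a b w ω n|}

lemma meas_bad (P : Set ℕ) {k : ℕ} (a b : Fin k → ℕ) (w : ℕ → ℝ) (η : ℝ) (m : ℕ) :
    MeasurableSet (bad P a b w η m) :=
  measurableSet_lt measurable_const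
    (Finset.measurable_fun_sum _ fun n _ => meas_cs P a b w n).abs

open Classical in
/-- deterministic bound -/
lemma det (P : Set ℕ) {k : ℕ} (a b : Fin k → ℕ) (w : ℕ → ℝ) (hw : ∀ n, |w n| ≤ 1) (η : ℝ)
    (hη : 0 < η) (K : ℕ) (hK : 1 ≤ K) (N : ℕ) (hN : 1 ≤ N) (ω : ℕ → Bool) :
    |∑ n ∈ Icc 1 N, cs P a b w ω n / n| ≤ 2 + Real.log N / K + 4 * η * (1 + Real.log N) +
      ∑ m ∈ (Icc 1 N).filter (fun m => N ≤ m ^ K),
        (bad P a b w η m).indicator (fun _ => (1 : ℝ)) ω / (m + 1) := by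
  have hS : ∀ m : ℕ, |∑ n ∈ Icc 1 m, cs P a b w ω n| ≤ m := by
    intro m
    refine (Finset.abs_sum_le_sum_abs _ _).trans ?_
    refine (Finset.sum_le_sum fun n _ => cs_abs P a b w hw ω n).trans ?_
    simp
  have hNr : (0 : ℝ) < N := by exact_mod_cast hN
  rw [abel]
  refine (abs_add_le _ _).trans ?_
  have h1 : |(∑ n ∈ Icc 1 N, cs P a b w ω n) / ((N : ℝ) + 1)| ≤ 1 := by
    rw [abs_div, abs_of_pos (by positivity : (0 : ℝ) < (N : ℝ) + 1), div_le_one (by positivity)]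
    have := hS N
    linarith
  have h2 : |∑ m ∈ Icc 1 N, (∑ n ∈ Icc 1 m, cs P a b w ω n) / ((m : ℝ) * (m + 1))| ≤
      ∑ m ∈ Icc 1 N, ((4 * η) * (1 / ((m : ℝ) + 1)) + ((if N ≤ m ^ K then
        (bad P a b w η m).indicator (fun _ => (1 : ℝ)) ω / (m + 1) else 0) +
        (if N ≤ m ^ K then 0 else 1 / ((m : ℝ) + 1)))) := by
    refine (Finset.abs_sum_le_sum_abs _ _).trans (Finset.sum_le_sum fun m hm => ?_)
    have hm1 : 1 ≤ m := (Finset.mem_Icc.1 hm).1
    have hmr : (0 : ℝ) < m := by exact_mod_cast hm1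
    rw [abs_div, abs_of_pos (by positivity : (0 : ℝ) < (m : ℝ) * (m + 1))]
    have e0 : |∑ n ∈ Icc 1 m, cs P a b w ω n| / ((m : ℝ) * (m + 1)) =
        (|∑ n ∈ Icc 1 m, cs P a b w ω n| / m) * (1 / ((m : ℝ) + 1)) := by
      field_simp
    have e1 : |∑ n ∈ Icc 1 m, cs P a b w ω n| / m ≤ 1 := by
      rw [div_le_one hmr]
      exact hS m
    have e2 : (0 : ℝ) ≤ 1 / ((m : ℝ) + 1) := by positivity
    have e3 : 0 ≤ (4 * η) * (1 / ((m : ℝ) + 1)) := by positivity
    rw [e0]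
    by_cases h3 : N ≤ m ^ K
    · rw [if_pos h3, if_pos h3, add_zero]
      by_cases h4 : ω ∈ bad P a b w η m
      · rw [Set.indicator_of_mem h4]
        nlinarith
      · rw [Set.indicator_of_notMem h4, zero_div, add_zero]
        refine mul_le_mul_of_nonneg_right ?_ e2
        rw [div_le_iff₀ hmr]
        exact not_lt.1 h4
    · rw [if_neg h3, if_neg h3, zero_add]
      nlinarith
  have h3 : ∑ m ∈ Icc 1 N, (if N ≤ m ^ K then (0 : ℝ) else 1 / ((m : ℝ) + 1)) ≤
      1 + Real.log N / K := by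
    set Y : ℕ := ⌊(N : ℝ) ^ (1 / (K : ℝ))⌋₊ with hY
    have hKr : (0 : ℝ) < K := by exact_mod_cast hK
    have hY0 : (1 : ℝ) ≤ (N : ℝ) ^ (1 / (K : ℝ)) :=
      Real.one_le_rpow (by exact_mod_cast hN) (by positivity)
    have hY1 : 1 ≤ Y := Nat.le_floor (by exact_mod_cast hY0)
    have h4 : ∑ m ∈ Icc 1 N, (if N ≤ m ^ K then (0 : ℝ) else 1 / ((m : ℝ) + 1)) ≤
        ∑ m ∈ Icc 1 Y, (1 : ℝ) / (m + 1) := by
      have h5 : ∑ m ∈ Icc 1 N, (if N ≤ m ^ K then (0 : ℝ) else 1 / ((m : ℝ) + 1)) =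
          ∑ m ∈ (Icc 1 N).filter (fun m => ¬ N ≤ m ^ K), 1 / ((m : ℝ) + 1) := by
        rw [Finset.sum_filter]
        refine Finset.sum_congr rfl fun m _ => ?_
        by_cases h6 : N ≤ m ^ K <;> simp [h6]
      rw [h5]
      refine Finset.sum_le_sum_of_subset_of_nonneg ?_ fun m _ _ => by positivity
      intro m hm
      obtain ⟨h6, h7⟩ := Finset.mem_filter.1 hm
      push Not at h7
      refine Finset.mem_Icc.2 ⟨(Finset.mem_Icc.1 h6).1, Nat.le_floor ?_⟩
      have h8 : (m : ℝ) ^ K ≤ N := by exact_mod_cast h7.le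
      have h9 : ((m : ℝ) ^ K) ^ (1 / (K : ℝ)) ≤ (N : ℝ) ^ (1 / (K : ℝ)) :=
        Real.rpow_le_rpow (by positivity) h8 (by positivity)
      have h10 : ((m : ℝ) ^ K) ^ (1 / (K : ℝ)) = m := by
        rw [← Real.rpow_natCast, ← Real.rpow_mul (by positivity), mul_one_div_cancel hKr.ne',
          Real.rpow_one]
      rwa [h10] at h9
    refine h4.trans ((harm Y).trans ?_)
    have h5 : Real.log Y ≤ Real.log N / K := by
      have h6 : (Y : ℝ) ≤ (N : ℝ) ^ (1 / (K : ℝ)) := Nat.floor_le (by linarith)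
      have h7 := Real.log_le_log (by exact_mod_cast hY1) h6
      rw [Real.log_rpow hNr] at h7
      calc Real.log Y ≤ 1 / K * Real.log N := h7
        _ = _ := by ring
    linarith
  have h4 : ∑ m ∈ Icc 1 N, ((4 * η) * (1 / ((m : ℝ) + 1)) + ((if N ≤ m ^ K then
        (bad P a b w η m).indicator (fun _ => (1 : ℝ)) ω / (m + 1) else 0) +
        (if N ≤ m ^ K then 0 else 1 / ((m : ℝ) + 1)))) =
      4 * η * ∑ m ∈ Icc 1 N, (1 : ℝ) / (m + 1) +
      (∑ m ∈ (Icc 1 N).filter (fun m => N ≤ m ^ K),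
        (bad P a b w η m).indicator (fun _ => (1 : ℝ)) ω / (m + 1) +
      ∑ m ∈ Icc 1 N, (if N ≤ m ^ K then (0 : ℝ) else 1 / ((m : ℝ) + 1))) := by
    rw [Finset.sum_add_distrib, Finset.sum_add_distrib, Finset.mul_sum, Finset.sum_filter]
  rw [h4] at h2
  have h5 := mul_le_mul_of_nonneg_left (harm N) (by positivity : 0 ≤ 4 * η)
  linarith

open Classical in
/-- Markov's inequality for the bad scales -/
lemma markov (P : Set ℕ) {k : ℕ} (a b : Fin k → ℕ) (w : ℕ → ℝ) (η : ℝ)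
    (N : ℕ) (R : Finset ℕ) (hR : R ⊆ Icc 1 N) (q : ℝ) (hq : 0 ≤ q)
    (h : ∀ m ∈ R, cm.real (bad P a b w η m) ≤ q) (t : ℝ) (ht : 0 < t) :
    cm.real {ω | t ≤ ∑ m ∈ R, (bad P a b w η m).indicator (fun _ => (1 : ℝ)) ω / (m + 1)} ≤
      q * (1 + Real.log N) / t := by
  have hint : ∀ m, Integrable (fun ω => (bad P a b w η m).indicator (fun _ => (1 : ℝ)) ω /
      ((m : ℝ) + 1)) cm := fun m =>
    ((integrable_const (1 : ℝ)).indicator (meas_bad P a b w η m)).div_const _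
  have h1 := mul_meas_ge_le_integral_of_nonneg (μ := cm)
    (f := fun ω => ∑ m ∈ R, (bad P a b w η m).indicator (fun _ => (1 : ℝ)) ω / ((m : ℝ) + 1))
    (Eventually.of_forall fun ω => Finset.sum_nonneg fun m _ =>
      div_nonneg (Set.indicator_nonneg (fun _ _ => zero_le_one) _) (by positivity))
    (integrable_finset_sum _ fun m _ => hint m) t
  rw [integral_finset_sum _ fun m _ => hint m] at h1
  have h2 : ∑ m ∈ R, ∫ ω, (bad P a b w η m).indicator (fun _ => (1 : ℝ)) ω / ((m : ℝ) + 1) ∂cm ≤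
      q * (1 + Real.log N) := by
    refine (Finset.sum_le_sum (g := fun m : ℕ => q * (1 / ((m : ℝ) + 1))) fun m hm => ?_).trans ?_
    · rw [integral_div, integral_indicator_const _ (meas_bad P a b w η m), smul_eq_mul, mul_one,
        div_eq_mul_one_div]
      exact mul_le_mul_of_nonneg_right (h m hm) (by positivity)
    · rw [← Finset.mul_sum]
      refine mul_le_mul_of_nonneg_left ?_ hq
      exact (Finset.sum_le_sum_of_subset_of_nonneg hR fun m _ _ => by positivity).trans (harm N)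
  rw [le_div_iff₀ ht, mul_comm]
  exact h1.trans h2

/-- the probability at one scale of the logarithmic average -/
theorem prob (P : Set ℕ) (hP : Tendsto (mass P lll) atTop atTop) (k : ℕ) (hk : 1 ≤ k)
    (a b : Fin k → ℕ) (ha : ∀ i, 1 ≤ a i) (hab : ∀ i j, i ≠ j → a i * b j ≠ a j * b i)
    (w : ℕ → ℝ) (hw : ∀ n, |w n| ≤ 1) (η : ℝ) (hη : 0 < η) :
    ∀ᶠ N : ℕ in atTop, cm.real {ω | 7 * η * Real.log N < |∑ n ∈ Icc 1 N, cs P a b w ω n / n|} ≤
      4 / η / Real.log (Real.log N) ^ 2 := by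
  classical
  obtain ⟨K, hK⟩ := exists_nat_ge (1 / η)
  have hKpos : 1 ≤ K := by
    by_contra hcon
    have h0 : K = 0 := by omega
    rw [h0, Nat.cast_zero] at hK
    have : 0 < 1 / η := by positivity
    linarith
  have hKr : (0 : ℝ) < K := by exact_mod_cast hKpos
  have hKη : 1 / (K : ℝ) ≤ η := by
    rw [div_le_iff₀ hKr]
    rw [div_le_iff₀ hη] at hK
    linarith
  set D : ℝ := 1 + 16 * k ^ 2 / η ^ 2 with hD
  have hk2 : (0 : ℝ) ≤ 16 * (k : ℝ) ^ 2 / η ^ 2 := by positivity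
  have hD1 : 1 ≤ D := by linarith
  obtain ⟨C, hC⟩ := mass_range P K hKpos
  obtain ⟨U0, X0, hsc⟩ := scale P k hk a b ha hab η hη
  have hmD := mass_lllD P hP D hD1
  filter_upwards [hmD.eventually_ge_atTop (1 + 1 / η + C), tl3.eventually_ge_atTop U0,
    tl3.eventually_ge_atTop 0, tl1.eventually_ge_atTop ((2 + 4 * η) / η), tl1.eventually_ge_atTop 1,
    tl2.eventually_gt_atTop 0, eventually_ge_atTop ((X0 + 126) ^ K)] with N g1 g2 g3 g4 g5 g6 g7
  have hN1 : 1 ≤ N := le_trans Nat.one_le_two_pow (by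
    refine le_trans (Nat.pow_le_pow_left (by omega : 2 ≤ X0 + 126) K) g7)
  set u := lllD D N with hu
  have huD : D * Real.log (Real.log (Real.log N)) ≤ u := Nat.le_ceil _
  have hU : U0 ≤ u := by
    have : (U0 : ℝ) ≤ u := by nlinarith
    exact_mod_cast this
  have hR : ∀ m ∈ (Icc 1 N).filter (fun m => N ≤ m ^ K), cm.real (bad P a b w η m) ≤
      2 * Real.exp (-(η ^ 2 * u / (8 * (k : ℝ) ^ 2))) := by
    intro m hm
    obtain ⟨h1, h2⟩ := Finset.mem_filter.1 hm
    have h3 : X0 + 126 ≤ m := by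
      by_contra hcon
      push Not at hcon
      have h4 : m ^ K < (X0 + 126) ^ K := Nat.pow_lt_pow_left hcon (by omega)
      omega
    refine hsc u m hU (by omega) ?_ w hw
    have h4 := hC (lllD D) N m (by omega) h2
    linarith
  have hmk := markov P a b w η N ((Icc 1 N).filter (fun m => N ≤ m ^ K))
    (Finset.filter_subset _ _) (2 * Real.exp (-(η ^ 2 * u / (8 * (k : ℝ) ^ 2)))) (by positivity) hR
    (η * Real.log N) (by positivity)
  have hexp : Real.exp (-(η ^ 2 * u / (8 * (k : ℝ) ^ 2))) ≤ 1 / Real.log (Real.log N) ^ 2 := by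
    have hkr : (0 : ℝ) < k := by exact_mod_cast hk
    have h1 : 2 * Real.log (Real.log (Real.log N)) ≤ η ^ 2 * u / (8 * (k : ℝ) ^ 2) := by
      rw [le_div_iff₀ (by positivity)]
      have h2 : 16 * (k : ℝ) ^ 2 / η ^ 2 * Real.log (Real.log (Real.log N)) ≤ u := by
        refine le_trans ?_ huD
        exact mul_le_mul_of_nonneg_right (by linarith) g3
      have h3 : η ^ 2 * (16 * (k : ℝ) ^ 2 / η ^ 2 * Real.log (Real.log (Real.log N))) =
          2 * Real.log (Real.log (Real.log N)) * (8 * (k : ℝ) ^ 2) := by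
        field_simp
        ring
      rw [← h3]
      exact mul_le_mul_of_nonneg_left h2 (by positivity)
    rw [Real.exp_neg, inv_eq_one_div]
    refine div_le_div_of_nonneg_left (by norm_num) (by positivity) ?_
    calc Real.log (Real.log N) ^ 2 = Real.exp (2 * Real.log (Real.log (Real.log N))) := by
          rw [two_mul, Real.exp_add, Real.exp_log g6]
          ring
      _ ≤ _ := Real.exp_le_exp.2 h1
  refine le_trans (measureReal_mono ?_) (hmk.trans ?_)
  · intro ω hω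
    simp only [Set.mem_setOf_eq] at hω ⊢
    have h1 := det P a b w hw η hη K hKpos N hN1 ω
    have h2 : Real.log N / K ≤ η * Real.log N := by
      rw [div_eq_mul_one_div, mul_comm]
      exact mul_le_mul_of_nonneg_right hKη (by linarith)
    rw [div_le_iff₀ hη] at g4
    linarith
  · rw [div_le_iff₀ (by positivity)]
    have h1 : 4 / η / Real.log (Real.log N) ^ 2 * (η * Real.log N) =
        (1 / Real.log (Real.log N) ^ 2) * (4 * Real.log N) := by
      field_simp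
    rw [h1]
    have h2 : 0 ≤ Real.exp (-(η ^ 2 * u / (8 * (k : ℝ) ^ 2))) := (Real.exp_pos _).le
    have h3 : 0 ≤ 1 / Real.log (Real.log N) ^ 2 := by positivity
    nlinarith [mul_le_mul hexp (by linarith : (1 + Real.log (N : ℝ)) ≤ 2 * Real.log N) (by linarith) h3]

end Pool.Agent.Q163.LX
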