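import Pool.Agent.Q163.LX.Thr

/-!
# Logarithmic averages below the threshold
-/

set_option autoImplicit false

namespace Pool.Agent.Q163.LX

open Finset Filter Topology MeasureTheory ProbabilityTheory Pool.Agent.Q163.RP Pool.Agent.Q163.RX

/-- the blocks -/
def blo (R i : ℕ) : Finset ℕ := Ico (2 ^ R ^ i) (2 ^ R ^ (i + 1))

lemma mem_blo {R i n : ℕ} (hR : 2 ≤ R) (h : n ∈ blo R i) : Nat.log R (Nat.log 2 n) = i := by
  unfold blo at h
  rw [Finset.mem_Ico] at h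
  have hn0 : n ≠ 0 := by
    have : 0 < 2 ^ R ^ i := by positivity
    omega
  have h1 : R ^ i ≤ Nat.log 2 n := (Nat.le_log_iff_pow_le (by norm_num) hn0).2 h.1
  have h2 : Nat.log 2 n < R ^ (i + 1) := (Nat.log_lt_iff_lt_pow (by norm_num) hn0).2 h.2
  have h3 : Nat.log 2 n ≠ 0 := by
    have : 0 < R ^ i := by positivity
    omega
  exact (Nat.log_eq_iff (Or.inr ⟨by omega, h3⟩)).2 ⟨h1, h2⟩

open Classical in
/-- every block has many free numbers -/
theorem free_block (R : ℕ) (K : ℝ) (hR : 4 * Real.exp (2 * K) ≤ R) (hR2 : 2 ≤ R) (Q : Finset ℕ)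
    (hQ : ∀ q ∈ Q, q.Prime) (hK : ∑ q ∈ Q, (1 : ℝ) / q ≤ K) (i : ℕ) :
    (R : ℝ) ^ i ≤ ∑ n ∈ (blo R i).filter (fun n => free Q n), (1 : ℝ) / n := by
  have h1 := harm_free (2 ^ R ^ (i + 1) - 1) Q hQ
  have h2 : Real.exp (-(2 * K)) ≤ ∏ q ∈ Q, (1 - (1 : ℝ) / q) := by
    refine le_trans ?_ (prod_ge Q hQ)
    exact Real.exp_le_exp.2 (by linarith)
  have h3 : (R : ℝ) ^ (i + 1) * Real.log 2 ≤
      ∑ n ∈ (Icc 1 (2 ^ R ^ (i + 1) - 1) : Finset ℕ), (1 : ℝ) / n := by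
    have h3 := log_add_one_le_harmonic (2 ^ R ^ (i + 1) - 1)
    rw [harmonic_eq_sum_Icc] at h3
    push_cast at h3
    have h4 : 1 ≤ 2 ^ R ^ (i + 1) := Nat.one_le_two_pow
    rw [Nat.cast_sub h4] at h3
    push_cast at h3
    rw [sub_add_cancel, Real.log_pow] at h3
    push_cast at h3
    simp only [one_div]
    exact h3
  have h4 : ∑ n ∈ (Icc 1 (2 ^ R ^ (i + 1) - 1)).filter (fun n => free Q n), (1 : ℝ) / n ≤
      ∑ n ∈ (Icc 1 (2 ^ R ^ i) : Finset ℕ), (1 : ℝ) / n +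
        ∑ n ∈ (blo R i).filter (fun n => free Q n), (1 : ℝ) / n := by
    have h5 : (Icc 1 (2 ^ R ^ (i + 1) - 1)).filter (fun n => free Q n) ⊆
        (Icc 1 (2 ^ R ^ i)) ∪ (blo R i).filter (fun n => free Q n) := by
      intro n hn
      obtain ⟨h6, h7⟩ := Finset.mem_filter.1 hn
      rw [Finset.mem_Icc] at h6
      by_cases h8 : n ≤ 2 ^ R ^ i
      · exact Finset.mem_union_left _ (Finset.mem_Icc.2 ⟨h6.1, h8⟩)
      · refine Finset.mem_union_right _ (Finset.mem_filter.2 ⟨Finset.mem_Ico.2 ⟨by omega, ?_⟩, h7⟩)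
        have : 0 < 2 ^ R ^ (i + 1) := by positivity
        omega
    refine (Finset.sum_le_sum_of_subset_of_nonneg h5 fun n _ _ => by positivity).trans ?_
    have h6 := Finset.sum_union_inter (s₁ := (Icc 1 (2 ^ R ^ i) : Finset ℕ))
      (s₂ := (blo R i).filter (fun n => free Q n)) (f := fun n : ℕ => (1 : ℝ) / n)
    have h7 : 0 ≤ ∑ n ∈ (Icc 1 (2 ^ R ^ i)) ∩ (blo R i).filter (fun n => free Q n), (1 : ℝ) / n :=
      Finset.sum_nonneg fun n _ => by positivity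
    linarith
  have h5 : ∑ n ∈ (Icc 1 (2 ^ R ^ i) : Finset ℕ), (1 : ℝ) / n ≤ 1 + (R : ℝ) ^ i * Real.log 2 := by
    have h := harmonic_le_one_add_log (2 ^ R ^ i)
    rw [harmonic_eq_sum_Icc] at h
    push_cast at h
    rw [Real.log_pow] at h
    push_cast at h
    simp only [one_div]
    exact h
  have hlog : (0.69 : ℝ) ≤ Real.log 2 := by
    have := Real.log_two_gt_d9
    linarith
  have hRi : (1 : ℝ) ≤ (R : ℝ) ^ i := one_le_pow₀ (by exact_mod_cast (by omega : 1 ≤ R))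
  have he : Real.exp (-(2 * K)) * Real.exp (2 * K) = 1 := by
    rw [← Real.exp_add, neg_add_cancel, Real.exp_zero]
  have h6 : 4 * ((R : ℝ) ^ i * Real.log 2) ≤
      (∏ q ∈ Q, (1 - (1 : ℝ) / q)) *
        ∑ n ∈ (Icc 1 (2 ^ R ^ (i + 1) - 1) : Finset ℕ), (1 : ℝ) / n := by
    have h7 : Real.exp (-(2 * K)) * ((R : ℝ) ^ (i + 1) * Real.log 2) ≤
        (∏ q ∈ Q, (1 - (1 : ℝ) / q)) *
          ∑ n ∈ (Icc 1 (2 ^ R ^ (i + 1) - 1) : Finset ℕ), (1 : ℝ) / n :=
      mul_le_mul h2 h3 (by positivity) ((Real.exp_pos _).le.trans h2)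
    refine le_trans ?_ h7
    have h8 : 4 ≤ Real.exp (-(2 * K)) * R := by
      have := mul_le_mul_of_nonneg_left hR (Real.exp_pos (-(2 * K))).le
      nlinarith
    have h9 : 0 ≤ (R : ℝ) ^ i * Real.log 2 := by positivity
    calc 4 * ((R : ℝ) ^ i * Real.log 2) ≤ (Real.exp (-(2 * K)) * R) * ((R : ℝ) ^ i * Real.log 2) :=
          mul_le_mul_of_nonneg_right h8 h9
      _ = _ := by
          rw [pow_succ]
          ring
  nlinarith

open Classical in
/-- the property of a block -/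
def RL (P : Set ℕ) (R : ℕ) (i : ℕ) (a : Finset ℕ × Finset ℕ) (ω : ℕ → Bool) : Prop :=
  (R : ℝ) ^ i ≤ ∑ n ∈ (blo R i).filter (fun n => free a.1 n), (1 : ℝ) / n ∧
    ∀ n ∈ blo R i, free a.1 n → mult (sg P es ω) n = mult (sg P es (pat a.2)) n

open Classical in
theorem local_step (P : Set ℕ) (K : ℝ) (hK : ∀ N0 : ℕ, ∃ N, N0 ≤ N ∧ mass P lll N ≤ K) (R : ℕ)
    (hR : 4 * Real.exp (2 * K) ≤ R) (hR2 : 2 ≤ R) (x0 : ℕ) :
    ∃ x1 : ℕ, x0 < x1 ∧ ∃ f : ℕ → Finset ℕ × Finset ℕ, ∀ ω : ℕ → Bool,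
      ∃ i, x0 ≤ i ∧ i < x1 ∧ RL P R i (f i) ω := by
  have hRr : (2 : ℝ) ≤ R := by exact_mod_cast hR2
  have hlR : 0 < Real.log R := Real.log_pos (by linarith)
  have hsize : ∀ᶠ X : ℝ in atTop, 2 * X ^ (3 / 4 : ℝ) + x0 + 2 ≤ X / Real.log R - 1 := by
    have h1 := (tendsto_rpow_atTop (by norm_num : (0 : ℝ) < 1 / 4)).eventually_ge_atTop
      (4 * Real.log R)
    filter_upwards [h1, eventually_ge_atTop (1 : ℝ),
      eventually_ge_atTop ((x0 + 3) * (2 * Real.log R))] with X h2 h3 h4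
    set t : ℝ := X ^ (1 / 4 : ℝ) with ht
    have hX0 : 0 ≤ X := by linarith
    have ht0 : 0 ≤ t := Real.rpow_nonneg hX0 _
    have e1 : t ^ 4 = X := by
      rw [ht, ← Real.rpow_natCast, ← Real.rpow_mul hX0]
      norm_num
    have e2 : t ^ 3 = X ^ (3 / 4 : ℝ) := by
      rw [ht, ← Real.rpow_natCast, ← Real.rpow_mul hX0]
      norm_num
    rw [← e2]
    have e3 : 2 * t ^ 3 ≤ X / Real.log R / 2 := by
      rw [le_div_iff₀ (by norm_num), le_div_iff₀ hlR, ← e1]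
      have : 0 ≤ t ^ 3 := by positivity
      nlinarith
    have e4 : (x0 : ℝ) + 3 ≤ X / Real.log R / 2 := by
      rw [le_div_iff₀ (by norm_num), le_div_iff₀ hlR]
      linarith
    linarith
  have hev := tl2.eventually hsize
  obtain ⟨N0, hN0⟩ := eventually_atTop.1 (hev.and (tl2.eventually_ge_atTop (Real.exp 1)))
  obtain ⟨N, hN, hmass⟩ := hK (N0 + 3)
  obtain ⟨hs1, hs2⟩ := hN0 N (by omega)
  have hN3 : 3 ≤ N := by omega
  have hNr : (0 : ℝ) < N := by exact_mod_cast (by omega : 0 < N)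
  set X := Real.log (Real.log (N : ℝ)) with hX
  have hX1 : 1 ≤ X := le_trans (by
    have := Real.add_one_le_exp (1 : ℝ)
    linarith) hs2
  have hlogN : 0 < Real.log (N : ℝ) := by
    by_contra hcon
    push Not at hcon
    have h1 : X ≤ 0 := by
      rw [hX]
      have h2 : Real.log (N : ℝ) = 0 ∨ Real.log (N : ℝ) < 0 := by
        rcases eq_or_lt_of_le hcon with h | h
        · exact Or.inl h
        · exact Or.inr h
      have h3 : 0 ≤ Real.log (N : ℝ) := Real.log_natCast_nonneg _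
      rcases h2 with h | h
      · rw [h, Real.log_zero]
      · linarith
    linarith
  set I := Nat.log R (Nat.log 2 N) with hI
  have hL0 : Nat.log 2 N ≠ 0 := by
    have := (Nat.le_log_iff_pow_le (b := 2) (x := 1) (by norm_num) (by omega : N ≠ 0)).2
      (by omega)
    omega
  have hI1 : 2 ^ R ^ I ≤ N := by
    have h1 : R ^ I ≤ Nat.log 2 N := Nat.pow_log_le_self R hL0
    exact (Nat.pow_le_pow_right (by norm_num) h1).trans (Nat.pow_log_le_self 2 (by omega))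
  have hIX : X / Real.log R - 1 ≤ I := by
    have h1 : Nat.log 2 N < R ^ (I + 1) := Nat.lt_pow_succ_log_self (by omega) _
    have h2 : N < 2 ^ (Nat.log 2 N + 1) := Nat.lt_pow_succ_log_self (by norm_num) N
    have h3 : (N : ℝ) ≤ 2 ^ (R ^ (I + 1)) := by
      have : N ≤ 2 ^ (R ^ (I + 1)) := h2.le.trans (Nat.pow_le_pow_right (by norm_num) (by omega))
      exact_mod_cast this
    have h4 := Real.log_le_log hNr h3
    rw [Real.log_pow] at h4
    push_cast at h4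
    have h5 : Real.log N ≤ (R : ℝ) ^ (I + 1) := by
      refine h4.trans ?_
      have : Real.log 2 ≤ 1 := by
        have := Real.log_two_lt_d9
        linarith
      have h6 : (0 : ℝ) ≤ (R : ℝ) ^ (I + 1) := by positivity
      nlinarith
    have h6 := Real.log_le_log hlogN h5
    rw [Real.log_pow, ← hX] at h6
    push_cast at h6
    have h7 : X / Real.log R ≤ I + 1 := by
      rw [div_le_iff₀ hlR]
      exact h6
    linarith
  set y := lll N with hy
  set Q : Finset ℕ := (Ioc y N).filter (fun p => p.Prime ∧ p ∈ P) with hQ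
  have hQp : ∀ q ∈ Q, q.Prime := fun q hq => (Finset.mem_filter.1 hq).2.1
  have hQK : ∑ q ∈ Q, (1 : ℝ) / q ≤ K := by
    refine le_trans (le_of_eq ?_) hmass
    unfold RX.mass
    rw [hQ]
  set G' : Finset ℕ := Ico x0 I with hG'
  have hG'c : X / Real.log R - 1 - x0 ≤ (G'.card : ℝ) := by
    rw [hG', Nat.card_Ico]
    have h1 : (I : ℝ) ≤ ((I - x0 : ℕ) : ℝ) + x0 := by
      exact_mod_cast (by omega : I ≤ I - x0 + x0)
    linarith
  have hpow : ((2 ^ (y + 1) : ℕ) : ℝ) ≤ G'.card := by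
    have h0 : 0 ≤ Real.log X := Real.log_nonneg hX1
    have h1 : (y : ℝ) ≤ Real.log X := Nat.floor_le h0
    have h2 : ((2 ^ (y + 1) : ℕ) : ℝ) ≤ 2 * X ^ (3 / 4 : ℝ) := by
      push_cast
      rw [pow_succ, mul_comm]
      refine mul_le_mul_of_nonneg_left ?_ (by norm_num)
      have h3 : (2 : ℝ) ^ y = Real.exp (y * Real.log 2) := by
        rw [mul_comm, Real.exp_mul, Real.exp_log (by norm_num)]
        exact (Real.rpow_natCast 2 y).symm
      rw [h3, Real.rpow_def_of_pos (by linarith)]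
      refine Real.exp_le_exp.2 ?_
      have h4 : Real.log 2 ≤ 3 / 4 := by
        have := Real.log_two_lt_d9
        linarith
      have h5 : 0 ≤ Real.log 2 := Real.log_nonneg (by norm_num)
      exact mul_le_mul h1 h4 h5 h0
    linarith
  -- patterns
  set A := (range (y + 1)).powerset with hA
  have hcard : Fintype.card A ≤ Fintype.card G' := by
    rw [Fintype.card_coe, Fintype.card_coe, hA, Finset.card_powerset, Finset.card_range]
    exact_mod_cast hpow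
  obtain ⟨e⟩ := Function.Embedding.nonempty_of_card_le hcard
  refine ⟨x0 + I + 1, by omega, fun i => (Q, if h : ∃ S : A, (e S : ℕ) = i then
    (h.choose : Finset ℕ) else ∅), fun ω => ?_⟩
  set S : Finset ℕ := (range (y + 1)).filter fun p => ω p = true with hS
  have hSA : S ∈ A := Finset.mem_powerset.2 (Finset.filter_subset _ _)
  set i : ℕ := (e ⟨S, hSA⟩ : ℕ) with hi
  have hiG : i ∈ G' := (e ⟨S, hSA⟩).2
  obtain ⟨hix0, hiI⟩ := Finset.mem_Ico.1 hiG
  refine ⟨i, hix0, by omega, ?_⟩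
  have hex : ∃ S : A, (e S : ℕ) = i := ⟨⟨S, hSA⟩, rfl⟩
  have hch : hex.choose = ⟨S, hSA⟩ := e.injective (Subtype.ext hex.choose_spec)
  have hfi : (if h : ∃ S : A, (e S : ℕ) = i then (h.choose : Finset ℕ) else ∅) = S := by
    rw [dif_pos hex, hch]
  unfold RL
  dsimp only
  rw [hfi]
  refine ⟨free_block R K hR hR2 Q hQp hQK i, fun n hn hfr => ?_⟩
  unfold blo at hn
  rw [Finset.mem_Ico] at hn
  have hn0 : n ≠ 0 := by
    have : 0 < 2 ^ R ^ i := by positivity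
    omega
  refine mult_pat P Q S ω y (2 ^ R ^ (i + 1)) n ?_ hn.2 hfr hn0 ?_
  · intro p hp hpP hyp hpX
    rw [hQ]
    refine Finset.mem_filter.2 ⟨Finset.mem_Ioc.2 ⟨hyp, ?_⟩, hp, hpP⟩
    have h1 : 2 ^ R ^ (i + 1) ≤ 2 ^ R ^ I :=
      Nat.pow_le_pow_right (by norm_num) (Nat.pow_le_pow_right (by omega) (by omega))
    omega
  · intro p hpy
    rw [hS, Finset.mem_filter, Finset.mem_range]
    exact ⟨fun h => h.2, fun h => ⟨by omega, h⟩⟩

open Classical in
/-- **Below the threshold.** -/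
theorem nec (P : Set ℕ) (hP : ¬ Tendsto (mass P lll) atTop atTop) :
    ∃ g : ℕ → ℝ, (∀ n, g n = 0 ∨ g n = 1 ∨ g n = -1) ∧ ∃ c : ℝ, 0 < c ∧ ∀ ω : ℕ → Bool,
      ∃ᶠ N : ℕ in atTop, c * Real.log N ≤ |∑ n ∈ Icc 1 N, g n * mult (sg P es ω) n / n| := by
  have hK : ∃ K : ℝ, ∀ N0 : ℕ, ∃ N, N0 ≤ N ∧ mass P lll N ≤ K := by
    rw [tendsto_atTop] at hP
    push Not at hP
    obtain ⟨K, hK⟩ := hP
    refine ⟨K, fun N0 => ?_⟩
    obtain ⟨N, h1, h2⟩ := (frequently_atTop.1 hK) N0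
    exact ⟨N, h1, h2.le⟩
  obtain ⟨K, hK⟩ := hK
  obtain ⟨R0, hR0⟩ := exists_nat_ge (4 * Real.exp (2 * K))
  set R := R0 + 2 with hRdef
  have hR : 4 * Real.exp (2 * K) ≤ R := by
    rw [hRdef]
    push_cast
    linarith
  have hR2 : 2 ≤ R := by omega
  have hRr : (2 : ℝ) ≤ R := by exact_mod_cast hR2
  obtain ⟨f, hf⟩ := glue (RL P R) (local_step P K hK R hR hR2)
  set g : ℕ → ℝ := fun n => if free (f (Nat.log R (Nat.log 2 n))).1 n then
    mult (sg P es (pat (f (Nat.log R (Nat.log 2 n))).2)) n else 0 with hg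
  have habs : ∀ ω n, mult (sg P es ω) n = 1 ∨ mult (sg P es ω) n = -1 := fun ω n =>
    (abs_eq zero_le_one).1 (abs_mult _ (abs_sg signs P ω) n)
  refine ⟨g, fun n => ?_, 1 / (2 * R), by positivity, fun ω => ?_⟩
  · simp only [hg]
    split_ifs
    · exact Or.inr (habs _ _)
    · exact Or.inl rfl
  rw [frequently_atTop]
  intro N0
  obtain ⟨i, hi1, hi2, hi3⟩ := hf ω (N0 + 1)
  set D : ℕ → ℝ := fun N => ∑ n ∈ Icc 1 N, g n * mult (sg P es ω) n / n with hD
  have hiR : i < R ^ i := Nat.lt_pow_self (by omega)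
  have hpow : N0 + 1 < 2 ^ R ^ i := by
    have h1 : R ^ i < 2 ^ R ^ i := Nat.lt_two_pow_self
    omega
  have h3 : 2 ^ R ^ i ≤ 2 ^ R ^ (i + 1) :=
    Nat.pow_le_pow_right (by norm_num) (Nat.pow_le_pow_right (by omega) (by omega))
  have hblock : (R : ℝ) ^ i ≤ D (2 ^ R ^ (i + 1) - 1) - D (2 ^ R ^ i - 1) := by
    have h1 : D (2 ^ R ^ (i + 1) - 1) - D (2 ^ R ^ i - 1) =
        ∑ n ∈ blo R i, g n * mult (sg P es ω) n / n := by
      simp only [hD]
      have h2 : Icc 1 (2 ^ R ^ (i + 1) - 1) = Icc 1 (2 ^ R ^ i - 1) ∪ blo R i := by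
        ext n
        unfold blo
        simp only [Finset.mem_Icc, Finset.mem_union, Finset.mem_Ico]
        omega
      have h4 : Disjoint (Icc 1 (2 ^ R ^ i - 1)) (blo R i) := by
        rw [Finset.disjoint_left]
        intro n hn hn2
        unfold blo at hn2
        rw [Finset.mem_Icc] at hn
        rw [Finset.mem_Ico] at hn2
        omega
      rw [h2, Finset.sum_union h4, add_sub_cancel_left]
    rw [h1]
    refine hi2.trans (le_of_eq ?_)
    rw [Finset.sum_filter]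
    refine Finset.sum_congr rfl fun n hn => ?_
    have hlogn := mem_blo hR2 hn
    simp only [hg]
    rw [hlogn]
    by_cases hfr : free (f i).1 n
    · rw [if_pos hfr, if_pos hfr, ← hi3 n hn hfr]
      rcases habs ω n with h | h <;> rw [h] <;> norm_num
    · rw [if_neg hfr, if_neg hfr, zero_mul, zero_div]
  have hlog2 : Real.log 2 ≤ 1 := by
    have := Real.log_two_lt_d9
    linarith
  have hlog2' : 0 ≤ Real.log 2 := Real.log_nonneg (by norm_num)
  have hlogs : ∀ t : ℕ, Real.log ((2 ^ R ^ t - 1 : ℕ) : ℝ) ≤ (R : ℝ) ^ t := by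
    intro t
    have h1 : 1 ≤ R ^ t := Nat.one_le_pow _ _ (by omega)
    have h2 : 2 ≤ 2 ^ R ^ t := Nat.le_self_pow (by omega) 2
    have h4 : Real.log ((2 ^ R ^ t - 1 : ℕ) : ℝ) ≤ Real.log ((2 ^ R ^ t : ℕ) : ℝ) :=
      Real.log_le_log (by exact_mod_cast (by omega : 0 < 2 ^ R ^ t - 1))
        (by exact_mod_cast Nat.sub_le _ _)
    refine h4.trans ?_
    push_cast
    rw [Real.log_pow]
    push_cast
    have : (0 : ℝ) ≤ (R : ℝ) ^ t := by positivity
    nlinarith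
  have hRi : (1 : ℝ) ≤ (R : ℝ) ^ i := one_le_pow₀ (by linarith)
  by_cases hcase : 1 / (2 * (R : ℝ)) * Real.log ((2 ^ R ^ i - 1 : ℕ) : ℝ) ≤ |D (2 ^ R ^ i - 1)|
  · exact ⟨2 ^ R ^ i - 1, by omega, hcase⟩
  · push Not at hcase
    refine ⟨2 ^ R ^ (i + 1) - 1, by omega, ?_⟩
    have h4 : (R : ℝ) ^ i ≤ |D (2 ^ R ^ (i + 1) - 1)| + |D (2 ^ R ^ i - 1)| := by
      have h4 := le_abs_self (D (2 ^ R ^ (i + 1) - 1))
      have h5 := neg_abs_le (D (2 ^ R ^ i - 1))
      linarith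
    have h5 : 1 / (2 * (R : ℝ)) * Real.log ((2 ^ R ^ i - 1 : ℕ) : ℝ) ≤ (R : ℝ) ^ i / 4 := by
      have h6 : 1 / (2 * (R : ℝ)) ≤ 1 / 4 := one_div_le_one_div_of_le (by norm_num) (by linarith)
      calc 1 / (2 * (R : ℝ)) * Real.log ((2 ^ R ^ i - 1 : ℕ) : ℝ) ≤ 1 / 4 * (R : ℝ) ^ i :=
            mul_le_mul h6 (hlogs i) (Real.log_natCast_nonneg _) (by norm_num)
        _ = _ := by ring
    have h6 : 1 / (2 * (R : ℝ)) * Real.log ((2 ^ R ^ (i + 1) - 1 : ℕ) : ℝ) ≤ (R : ℝ) ^ i / 2 := by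
      calc 1 / (2 * (R : ℝ)) * Real.log ((2 ^ R ^ (i + 1) - 1 : ℕ) : ℝ) ≤
          1 / (2 * (R : ℝ)) * (R : ℝ) ^ (i + 1) :=
            mul_le_mul_of_nonneg_left (hlogs (i + 1)) (by positivity)
        _ = _ := by
            rw [pow_succ]
            field_simp
    linarith

end Pool.Agent.Q163.LX
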