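import Pool.Agent.Q163.RX.Nec

/-!
# Logarithmic averages: bounds at one scale
-/

set_option autoImplicit false

namespace Pool.Agent.Q163.LX

open Finset Filter Topology MeasureTheory ProbabilityTheory Pool.Agent.Q163.RP Pool.Agent.Q163.RX

/-- a subset with a given mass -/
lemma subset_mass (B : Finset ℕ) (f : ℕ → ℝ) (hf1 : ∀ p, f p ≤ 1) (t : ℝ)
    (ht0 : 0 ≤ t) (ht : t ≤ ∑ p ∈ B, f p) :
    ∃ C ⊆ B, t ≤ ∑ p ∈ C, f p ∧ ∑ p ∈ C, f p ≤ t + 1 := by
  classical
  induction B using Finset.induction_on with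
  | empty =>
    rw [Finset.sum_empty] at ht
    exact ⟨∅, Finset.Subset.refl _, by rw [Finset.sum_empty]; exact ht, by
      rw [Finset.sum_empty]; linarith⟩
  | insert p B hp ih =>
    by_cases h : t ≤ ∑ p ∈ B, f p
    · obtain ⟨C, h1, h2⟩ := ih h
      exact ⟨C, h1.trans (Finset.subset_insert _ _), h2⟩
    · push Not at h
      refine ⟨insert p B, Finset.Subset.refl _, ht, ?_⟩
      rw [Finset.sum_insert hp]
      have := hf1 p
      linarith

open Classical in
/-- primes of `P` between `u` and the cube root of `X` -/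
noncomputable def bl (P : Set ℕ) (u X : ℕ) : Finset ℕ :=
  (Ioc u (rt X)).filter fun p => p.Prime ∧ p ∈ P

/-- the correlation sum -/
noncomputable def cs (P : Set ℕ) {k : ℕ} (a b : Fin k → ℕ) (w : ℕ → ℝ) (ω : ℕ → Bool) (n : ℕ) : ℝ :=
  w n * ∏ i, mult (sg P es ω) (a i * n + b i)

lemma cs_abs (P : Set ℕ) {k : ℕ} (a b : Fin k → ℕ) (w : ℕ → ℝ) (hw : ∀ n, |w n| ≤ 1)
    (ω : ℕ → Bool) (n : ℕ) : |cs P a b w ω n| ≤ 1 := by
  unfold cs
  rw [abs_mul, Finset.abs_prod]
  have h1 : ∏ i, |mult (sg P es ω) (a i * n + b i)| = 1 :=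
    Finset.prod_eq_one fun i _ => abs_mult _ (abs_sg signs P ω) _
  rw [h1, mul_one]
  exact hw n

/-- **One scale.** -/
theorem scale (P : Set ℕ) (k : ℕ) (hk : 1 ≤ k)
    (a b : Fin k → ℕ) (ha : ∀ i, 1 ≤ a i) (hab : ∀ i j, i ≠ j → a i * b j ≠ a j * b i)
    (η : ℝ) (hη : 0 < η) :
    ∃ U0 X0 : ℕ, ∀ u X : ℕ, U0 ≤ u → X0 ≤ X → 1 + 1 / η ≤ ∑ p ∈ bl P u X, (1 : ℝ) / p →
      ∀ w : ℕ → ℝ, (∀ n, |w n| ≤ 1) →
      cm.real {ω | 4 * η * X < |∑ n ∈ Icc 1 X, cs P a b w ω n|} ≤
        2 * Real.exp (-(η ^ 2 * u / (8 * (k : ℝ) ^ 2))) := by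
  classical
  set i0 : Fin k := ⟨0, hk⟩ with hi0
  set M : ℕ → ℕ := fun n => ∏ i, (a i * n + b i) with hM
  have hpos : ∀ n, 1 ≤ n → ∀ i, a i * n + b i ≠ 0 := by
    intro n hn i
    have := Nat.mul_pos (ha i) hn
    omega
  have hM0 : ∀ n, 1 ≤ n → M n ≠ 0 := fun n hn => Finset.prod_ne_zero_iff.2 fun i _ => hpos n hn i
  set A : ℕ := (∑ i, a i) * (∑ i, b i + 1) with hA
  have haA : ∀ i, a i ≤ ∑ i, a i := fun i =>
    Finset.single_le_sum (f := a) (fun _ _ => Nat.zero_le _) (Finset.mem_univ i)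
  have hbA : ∀ i, b i ≤ ∑ i, b i := fun i =>
    Finset.single_le_sum (f := b) (fun _ _ => Nat.zero_le _) (Finset.mem_univ i)
  have hA1 : ∀ i, a i ≤ A := fun i => by
    have h1 := haA i
    have h2 : (∑ i, a i) * 1 ≤ (∑ i, a i) * (∑ i, b i + 1) := Nat.mul_le_mul_left _ (by omega)
    omega
  have hA2 : ∀ i j, a i * b j ≤ A := fun i j => by
    have h1 := Nat.mul_le_mul (haA i) ((hbA j).trans (Nat.le_succ _))
    exact h1
  have h1η : 0 < 1 / η := by positivity
  obtain ⟨X1, hX1⟩ := eventually_atTop.1 (rt_small η hη)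
  obtain ⟨U1, hU1⟩ := exists_nat_ge ((2 + 1 / η) / η)
  refine ⟨A + U1 + 1, X1 + 1, fun u X hu hX hmass w hw => ?_⟩
  obtain ⟨B, hBs, hLb, hLu⟩ := subset_mass (bl P u X) (fun p : ℕ => (1 : ℝ) / p)
    (fun p => by
      rcases Nat.eq_zero_or_pos p with h | h
      · subst h; simp
      · rw [div_le_one (by exact_mod_cast h)]; exact_mod_cast h) (1 + 1 / η) (by linarith) hmass
  have hN1 : 1 ≤ X := by omega
  have hNr : (0 : ℝ) < X := by exact_mod_cast hN1
  have hu1 : 1 ≤ u := by omega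
  have hur : (0 : ℝ) < u := by exact_mod_cast hu1
  have hAu : A < u := by omega
  have hBb : ∀ p ∈ B, p ∈ Ioc u (rt X) ∧ p.Prime ∧ p ∈ P := by
    intro p hp
    have hp := hBs hp
    unfold bl at hp
    obtain ⟨h3, h4⟩ := Finset.mem_filter.1 hp
    exact ⟨h3, h4⟩
  set L : ℝ := ∑ p ∈ B, (1 : ℝ) / p with hL
  have hL1 : 1 ≤ L := by linarith
  have hap : ∀ i, ∀ p ∈ B, ¬ p ∣ a i := by
    intro i p hp hd
    have h1 := Nat.le_of_dvd (ha i) hd
    have h2 := (Finset.mem_Ioc.1 (hBb p hp).1).1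
    have h3 := hA1 i
    omega
  have hos := one_sum P X u (rt X) k hN1 hu1 (rt_pow X) hk B
    (fun p hp => (hBb p hp).2) (fun p hp => (hBb p hp).1) (a i0) (b i0) (hap i0) M
    (fun n hn => by
      rw [Finset.mem_Icc] at hn
      refine ⟨∏ i ∈ Finset.univ.erase i0, (a i * n + b i), ?_, hM0 n hn.1, ?_⟩
      · simp only [hM]
        rw [← Finset.mul_prod_erase _ _ (Finset.mem_univ i0)]
      · intro p hp hd hd2
        obtain ⟨j, hj, hj2⟩ := ((hBb p hp).2.1.prime.dvd_finsetProd_iff _).1 hd2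
        have hji : j ≠ i0 := Finset.ne_of_mem_erase hj
        apply hab j i0 hji
        have h3 : a j * b i0 + a i0 * (a j * n + b j) = a i0 * b j + a j * (a i0 * n + b i0) := by
          ring
        have h4 : a j * b i0 ≡ a i0 * b j [MOD p] := by
          have h5 : a j * b i0 + a i0 * (a j * n + b j) ≡ a j * b i0 + 0 [MOD p] :=
            Nat.ModEq.add_left _ ((Nat.modEq_zero_iff_dvd).2 (dvd_mul_of_dvd_right hj2 _))
          have h6 : a i0 * b j + a j * (a i0 * n + b i0) ≡ a i0 * b j + 0 [MOD p] :=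
            Nat.ModEq.add_left _ ((Nat.modEq_zero_iff_dvd).2 (dvd_mul_of_dvd_right hd _))
          rw [h3] at h5
          simpa using h5.symm.trans h6
        have h5 := (Finset.mem_Ioc.1 (hBb p hp).1).1
        have h6 := hA2 j i0
        have h7 := hA2 i0 j
        have h8 := Nat.ModEq.eq_of_lt_of_lt h4 (by omega) (by omega)
        rw [h8])
    (fun p hp => by
      have h1 : (Icc 1 X).filter (fun n => p ∣ M n) ⊆
          Finset.univ.biUnion fun i => (Icc 1 X).filter fun n => p ∣ a i * n + b i := by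
        intro n hn
        obtain ⟨h2, h3⟩ := Finset.mem_filter.1 hn
        obtain ⟨j, hj1, hj2⟩ := ((hBb p hp).2.1.prime.dvd_finsetProd_iff _).1 h3
        exact Finset.mem_biUnion.2 ⟨j, hj1, Finset.mem_filter.2 ⟨h2, hj2⟩⟩
      have h2 : ((((Icc 1 X).filter fun n => p ∣ M n).card : ℕ) : ℝ) ≤
          ∑ i, ((((Icc 1 X).filter fun n => p ∣ a i * n + b i).card : ℕ) : ℝ) := by
        exact_mod_cast (Finset.card_le_card h1).trans Finset.card_biUnion_le
      refine h2.trans ((Finset.sum_le_sum (g := fun _ => (X : ℝ) / p + 1) fun i _ => ?_).trans ?_)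
      · have hcop : Nat.Coprime (a i) p := by
          rw [Nat.coprime_comm, Nat.Prime.coprime_iff_not_dvd (hBb p hp).2.1]
          exact hap i p hp
        have := (abs_le.1 (card_dvd X p (a i) (b i) (hBb p hp).2.1.pos hcop)).2
        linarith
      · rw [Finset.sum_const, Finset.card_univ, Fintype.card_fin, nsmul_eq_mul])
    w hw L rfl hL1 η hη
  refine le_trans (measureReal_mono ?_) hos
  intro ω hω
  simp only [Set.mem_setOf_eq] at hω ⊢
  have hFF : ∑ n ∈ Icc 1 X, cs P a b w ω n = ∑ n ∈ Icc 1 X, w n * mult (sg P es ω) (M n) := by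
    refine Finset.sum_congr rfl fun n hn => ?_
    rw [Finset.mem_Icc] at hn
    simp only [hM, cs]
    rw [mult_prod _ _ _ fun i _ => hpos n hn.1 i]
  rw [hFF] at hω
  have e1 : (X : ℝ) / L ≤ η * X := by
    rw [div_le_iff₀ (by linarith)]
    have h1 : 1 ≤ η * L := by
      have h2 : η * (1 / η) = 1 := by field_simp
      nlinarith
    nlinarith
  have e2 : (X : ℝ) * L / u ≤ η * X := by
    rw [div_le_iff₀ hur]
    have h1 : L ≤ η * u := by
      have h2 : (2 + 1 / η) / η ≤ u := by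
        refine hU1.trans ?_
        exact_mod_cast (by omega : U1 ≤ u)
      rw [div_le_iff₀ hη] at h2
      linarith
    nlinarith
  have g4 := hX1 X (by omega)
  linarith

end Pool.Agent.Q163.LX
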