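import Pool.Agent.Q163.LX.Log

/-!
# Logarithmic averages: almost sure convergence at the exact threshold (2)
-/

set_option autoImplicit false

namespace Pool.Agent.Q163.LX

open Finset Filter Topology MeasureTheory ProbabilityTheory Pool.Agent.Q163.RP Pool.Agent.Q163.RX

lemma sum_Ioc_inv (m n : ℕ) (hm : 1 ≤ m) (hmn : m ≤ n) :
    ∑ i ∈ Ioc m n, (1 : ℝ) / i ≤ Real.log n - Real.log m := by
  induction n, hmn using Nat.le_induction with
  | base => simp
  | succ n hmn ih =>
    rw [Finset.sum_Ioc_succ_top hmn]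
    have hn : (0 : ℝ) < n := by exact_mod_cast (by omega : 0 < n)
    have h1 : (1 : ℝ) / ((n + 1 : ℕ) : ℝ) ≤ Real.log ((n + 1 : ℕ) : ℝ) - Real.log n := by
      push_cast
      rw [← Real.log_div (by positivity) hn.ne']
      have h2 := Real.one_sub_inv_le_log_of_pos (x := ((n : ℝ) + 1) / n) (by positivity)
      refine le_trans (le_of_eq ?_) h2
      field_simp
      ring
    linarith

/-- **Almost sure convergence of logarithmic averages at the exact threshold.** -/
theorem thr (P : Set ℕ) (hP : Tendsto (mass P lll) atTop atTop) (k : ℕ) (hk : 1 ≤ k)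
    (a b : Fin k → ℕ) (ha : ∀ i, 1 ≤ a i) (hab : ∀ i j, i ≠ j → a i * b j ≠ a j * b i)
    (w : ℕ → ℝ) (hw : ∀ n, |w n| ≤ 1) :
    ∀ᵐ ω ∂cm, Tendsto (fun N : ℕ => (∑ n ∈ Icc 1 N, cs P a b w ω n / n) / Real.log N)
      atTop (𝓝 0) := by
  classical
  have hm : ∀ m : ℕ, ∀ᵐ ω ∂cm, ∀ᶠ N : ℕ in atTop,
      |∑ n ∈ Icc 1 N, cs P a b w ω n / n| ≤ 10 * (1 / ((m : ℝ) + 1)) * Real.log N := by
    intro m
    set η : ℝ := 1 / ((m : ℝ) + 1) with hη
    have hη0 : 0 < η := by positivity
    set c : ℝ := 1 + η with hc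
    have hc1 : 1 < c := by linarith
    have hlc : 0 < Real.log c := Real.log_pos hc1
    have hpow : Tendsto (fun j : ℕ => c ^ j) atTop atTop := tendsto_pow_atTop_atTop_of_one_lt hc1
    set s : ℕ → ℕ := fun j => ⌊Real.exp (c ^ j)⌋₊ with hs
    have hsj : Tendsto s atTop atTop :=
      (tendsto_nat_floor_atTop (α := ℝ)).comp (Real.tendsto_exp_atTop.comp hpow)
    have hs1 : ∀ j, 1 ≤ s j := fun j => Nat.le_floor (by
      push_cast
      exact Real.one_le_exp (by positivity))
    have hslog : ∀ j, c ^ j - 1 ≤ Real.log (s j) := by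
      intro j
      have h1 : Real.exp (c ^ j) ≤ 2 * (s j : ℝ) := by
        have h5 := (Nat.lt_floor_add_one (Real.exp (c ^ j))).le
        have h6 : (1 : ℝ) ≤ s j := by exact_mod_cast hs1 j
        have h7 : (s j : ℝ) = ((⌊Real.exp (c ^ j)⌋₊ : ℕ) : ℝ) := rfl
        linarith
      have h6 : (0 : ℝ) < s j := by exact_mod_cast hs1 j
      have h7 := Real.log_le_log (Real.exp_pos _) h1
      rw [Real.log_exp, Real.log_mul (by norm_num) h6.ne'] at h7
      have := Real.log_two_lt_d9
      linarith
    have hll : ∀ᶠ j : ℕ in atTop, j / 2 * Real.log c ≤ Real.log (Real.log (s j)) := by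
      have h1 : Tendsto (fun j : ℕ => (j : ℝ) * (Real.log c / 2)) atTop atTop :=
        tendsto_natCast_atTop_atTop.atTop_mul_const (by positivity)
      filter_upwards [h1.eventually_ge_atTop (Real.log 2), hpow.eventually_ge_atTop 2] with j h2 h3
      have h4 : c ^ j / 2 ≤ Real.log (s j) := by
        have := hslog j
        linarith
      have h5 := Real.log_le_log (by positivity) h4
      rw [Real.log_div (by positivity) (by norm_num), Real.log_pow] at h5
      linarith
    have hprob := prob P hP k hk a b ha hab w hw η hη0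
    obtain ⟨j0, hj0⟩ := eventually_atTop.1 ((hsj.eventually hprob).and
      (hll.and (eventually_ge_atTop 1)))
    have hsum : ∑' j, cm ((fun j => {ω | 7 * η * Real.log (s (j + j0)) <
        |∑ n ∈ Icc 1 (s (j + j0)), cs P a b w ω n / n|}) j) ≠ ⊤ := by
      have h2 : ∀ j, cm {ω | 7 * η * Real.log (s (j + j0)) <
          |∑ n ∈ Icc 1 (s (j + j0)), cs P a b w ω n / n|} ≤
          ENNReal.ofReal (16 / η / Real.log c ^ 2 * (1 / ((j + j0 : ℕ) : ℝ) ^ 2)) := by
        intro j
        obtain ⟨h3, h4, h5⟩ := hj0 (j + j0) (by omega)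
        rw [← ENNReal.ofReal_toReal (measure_ne_top cm _)]
        refine ENNReal.ofReal_le_ofReal (le_trans h3 ?_)
        have hj : (0 : ℝ) < ((j + j0 : ℕ) : ℝ) := by exact_mod_cast (by omega : 0 < j + j0)
        have h7 : (((j + j0 : ℕ) : ℝ) / 2 * Real.log c) ^ 2 ≤
            Real.log (Real.log (s (j + j0))) ^ 2 := by
          have : 0 ≤ ((j + j0 : ℕ) : ℝ) / 2 * Real.log c := by positivity
          gcongr
        calc 4 / η / Real.log (Real.log (s (j + j0))) ^ 2 ≤
            4 / η / (((j + j0 : ℕ) : ℝ) / 2 * Real.log c) ^ 2 :=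
              div_le_div_of_nonneg_left (by positivity) (by positivity) h7
          _ = 16 / η / Real.log c ^ 2 * (1 / ((j + j0 : ℕ) : ℝ) ^ 2) := by
              field_simp
              norm_num
      refine ne_top_of_le_ne_top ?_ (ENNReal.tsum_le_tsum h2)
      have h3 : Summable fun j : ℕ => 16 / η / Real.log c ^ 2 * (1 / ((j + j0 : ℕ) : ℝ) ^ 2) :=
        ((summable_nat_add_iff j0).2
          (Real.summable_one_div_nat_pow.2 (by norm_num : 1 < 2))).mul_left _
      rw [← ENNReal.ofReal_tsum_of_nonneg (fun j => by positivity) h3]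
      exact ENNReal.ofReal_ne_top
    filter_upwards [ae_eventually_notMem hsum] with ω hω
    obtain ⟨j1, hj1⟩ := eventually_atTop.1 hω
    have hj2 : ∀ j, j1 + j0 ≤ j → |∑ n ∈ Icc 1 (s j), cs P a b w ω n / n| ≤
        7 * η * Real.log (s j) := by
      intro j hj
      have h2 := hj1 (j - j0) (by omega)
      simp only [Nat.sub_add_cancel (by omega : j0 ≤ j)] at h2
      exact not_lt.1 h2
    have hdiv : Tendsto (fun N : ℕ => Real.log (Real.log (N : ℝ)) / Real.log c) atTop atTop :=
      tl2.atTop_div_const hlc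
    filter_upwards [hdiv.eventually_ge_atTop ((j1 + j0 + 1 : ℕ) : ℝ), tl1.eventually_ge_atTop (2 / η),
      tl1.eventually_gt_atTop 0, eventually_ge_atTop 1, tl2.eventually_ge_atTop 0] with N g1 g2 g3 g4 g5
    have hNr : (0 : ℝ) < N := by exact_mod_cast g4
    set j : ℕ := ⌊Real.log (Real.log (N : ℝ)) / Real.log c⌋₊ with hj
    have hjge : j1 + j0 + 1 ≤ j := Nat.le_floor g1
    have hjf : (j : ℝ) ≤ Real.log (Real.log (N : ℝ)) / Real.log c :=
      Nat.floor_le (by positivity)
    have hjf2 : Real.log (Real.log (N : ℝ)) / Real.log c < (j : ℝ) + 1 := Nat.lt_floor_add_one _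
    rw [le_div_iff₀ hlc] at hjf
    rw [div_lt_iff₀ hlc] at hjf2
    have hcj : c ^ j ≤ Real.log N := by
      have h1 : c ^ j = Real.exp (j * Real.log c) := by
        rw [← Real.log_pow, Real.exp_log (by positivity)]
      rw [h1, ← Real.le_log_iff_exp_le g3]
      exact hjf
    have hcj2 : Real.log N ≤ c * c ^ j := by
      have h1 : c * c ^ j = Real.exp (((j : ℝ) + 1) * Real.log c) := by
        have h0 : ((j : ℝ) + 1) * Real.log c = j * Real.log c + Real.log c := by ring
        have h00 : Real.exp (Real.log c) = c := Real.exp_log (by linarith)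
        rw [h0, Real.exp_add, h00, ← Real.log_pow, Real.exp_log (by positivity)]
        exact mul_comm _ _
      rw [h1, ← Real.log_le_iff_le_exp g3]
      exact hjf2.le
    have hsN : s j ≤ N := by
      have h1 : (s j : ℝ) ≤ Real.exp (c ^ j) := Nat.floor_le (Real.exp_pos _).le
      have h2 : Real.exp (c ^ j) ≤ N := by
        rw [← Real.le_log_iff_exp_le hNr]
        exact hcj
      exact_mod_cast h1.trans h2
    have hsplit : ∑ n ∈ Icc 1 N, cs P a b w ω n / n = ∑ n ∈ Icc 1 (s j), cs P a b w ω n / n +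
        ∑ n ∈ Ioc (s j) N, cs P a b w ω n / n := by
      rw [← Finset.sum_union]
      · refine Finset.sum_congr ?_ fun _ _ => rfl
        ext n
        simp only [Finset.mem_union, Finset.mem_Icc, Finset.mem_Ioc]
        have := hs1 j
        omega
      · rw [Finset.disjoint_left]
        intro n hn hn2
        rw [Finset.mem_Icc] at hn
        rw [Finset.mem_Ioc] at hn2
        omega
    have htail : |∑ n ∈ Ioc (s j) N, cs P a b w ω n / n| ≤ Real.log N - Real.log (s j) := by
      refine (Finset.abs_sum_le_sum_abs _ _).trans ?_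
      refine (Finset.sum_le_sum (g := fun n : ℕ => (1 : ℝ) / n) fun n hn => ?_).trans
        (sum_Ioc_inv _ _ (hs1 j) hsN)
      rw [abs_div, Nat.abs_cast]
      exact div_le_div_of_nonneg_right (cs_abs P a b w hw ω n) (Nat.cast_nonneg _)
    rw [hsplit]
    refine (abs_add_le _ _).trans ?_
    have e1 := hj2 j (by omega)
    have e2 := hslog j
    have e3 : Real.log (s j) ≤ Real.log N :=
      Real.log_le_log (by exact_mod_cast hs1 j) (by exact_mod_cast hsN)
    have e4 : 7 * η * Real.log (s j) ≤ 7 * η * Real.log N :=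
      mul_le_mul_of_nonneg_left e3 (by positivity)
    have e5 : Real.log N - c ^ j ≤ η * Real.log N := by
      have h1 : Real.log N - c ^ j ≤ η * c ^ j := by
        rw [hc] at hcj2 ⊢
        linarith
      exact h1.trans (mul_le_mul_of_nonneg_left hcj hη0.le)
    rw [div_le_iff₀ hη0] at g2
    linarith
  rw [← ae_all_iff] at hm
  filter_upwards [hm] with ω hω
  rw [Metric.tendsto_atTop']
  intro e he
  obtain ⟨m, hm⟩ := exists_nat_one_div_lt (by positivity : (0 : ℝ) < e / 10)
  obtain ⟨N0, hN0⟩ := eventually_atTop.1 ((hω m).and (tl1.eventually_gt_atTop 0))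
  refine ⟨N0, fun N hN => ?_⟩
  obtain ⟨h2, h3⟩ := hN0 N hN.le
  rw [Real.dist_eq, sub_zero, abs_div, abs_of_pos h3, div_lt_iff₀ h3]
  nlinarith

end Pool.Agent.Q163.LX
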